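import Pool.Agent.Q293.HF.Stm

/-!
# Project HF: the fibre (F1)
-/

set_option autoImplicit false

open Topology Filter

namespace Pool.Agent.Q299.HF.F1

open Pool.Agent.Q293.HF Pool.Agent.Helper922.HB

/-- nested subtypes -/
def nest {E : Type} [TopologicalSpace E] {S : Set E} (T : Set ↥S) (U : Set E)
    (h : ∀ x : S, x ∈ T ↔ (x : E) ∈ U) (hU : U ⊆ S) : ↥T ≃ₜ ↥U where
  toFun t := ⟨t.1.1, (h _).1 t.2⟩
  invFun u := ⟨⟨u.1, hU u.2⟩, (h _).2 u.2⟩
  left_inv _ := rfl
  right_inv _ := rfl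
  continuous_toFun := by fun_prop
  continuous_invFun := by fun_prop

theorem contr {E : Type} [TopologicalSpace E] {S : Set E} (T : Set ↥S) (U : Set E)
    (h : ∀ x : S, x ∈ T ↔ (x : E) ∈ U) (hU : U ⊆ S) (hc : ContractibleSpace ↥U) :
    ContractibleSpace ↥T := (nest T U h hU).contractibleSpace

theorem om_eq : om = ⟨-1 / 2, √3 / 2⟩ := by
  unfold om
  have e : (2 * Real.pi * Complex.I / 3 : ℂ) = ((2 * Real.pi / 3 : ℝ) : ℂ) * Complex.I := by
    push_cast; ring
  have hc : Real.cos (2 * Real.pi / 3) = -1 / 2 := by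
    rw [show 2 * Real.pi / 3 = Real.pi - Real.pi / 3 by ring, Real.cos_pi_sub,
      Real.cos_pi_div_three]
    norm_num
  have hs : Real.sin (2 * Real.pi / 3) = √3 / 2 := by
    rw [show 2 * Real.pi / 3 = Real.pi - Real.pi / 3 by ring, Real.sin_pi_sub,
      Real.sin_pi_div_three]
  rw [e]
  apply Complex.ext
  · rw [Complex.exp_ofReal_mul_I_re, hc]
  · rw [Complex.exp_ofReal_mul_I_im, hs]

theorem om3 : om ^ 3 = 1 := by
  unfold om
  rw [← Complex.exp_nat_mul]
  have : ((3 : ℕ) : ℂ) * (2 * Real.pi * Complex.I / 3) = 2 * Real.pi * Complex.I := by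
    push_cast; ring
  rw [this, Complex.exp_two_pi_mul_I]

theorem omi : om⁻¹ = om ^ 2 := by
  have h := om3
  symm
  apply eq_inv_of_mul_eq_one_left
  rw [← h]
  ring

theorem omi_eq : om⁻¹ = ⟨-1 / 2, -(√3 / 2)⟩ := by
  rw [omi, om_eq]
  have h3 : √3 * √3 = 3 := Real.mul_self_sqrt (by norm_num)
  apply Complex.ext
  · simp only [pow_two, Complex.mul_re]
    linear_combination (-1 / 4) * h3
  · simp only [pow_two, Complex.mul_im]
    ring

/-- the sector -/
def Se (w : ℂ) : Prop := √3 * |w.im| < w.re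

theorem Se_iff {w : ℂ} (h : 0 < (w ^ 3).re) : Se w ↔ 0 < w.re := by
  constructor
  · intro h1
    exact lt_of_le_of_lt (by positivity) h1
  · intro h1
    have e : (w ^ 3).re = w.re * (w.re ^ 2 - 3 * w.im ^ 2) := by
      simp only [pow_succ, pow_zero, one_mul, Complex.mul_re, Complex.mul_im]
      ring
    rw [e] at h
    have h2 : 0 < w.re ^ 2 - 3 * w.im ^ 2 := by
      by_contra hcon
      have := mul_nonpos_of_nonneg_of_nonpos h1.le (not_lt.1 hcon)
      linarith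
    have h3 : (√3 * |w.im|) ^ 2 < w.re ^ 2 := by
      rw [mul_pow, Real.sq_sqrt (by norm_num), sq_abs]
      linarith
    exact lt_of_pow_lt_pow_left₀ 2 h1.le h3

theorem cube_om (w : ℂ) : (om * w) ^ 3 = w ^ 3 := by rw [mul_pow, om3, one_mul]

theorem cube_omi (w : ℂ) : (om⁻¹ * w) ^ 3 = w ^ 3 := by rw [mul_pow, inv_pow, om3, inv_one, one_mul]

theorem re_om (w : ℂ) : (om * w).re = -(w.re + √3 * w.im) / 2 := by
  rw [om_eq, Complex.mul_re]; ring

theorem re_omi (w : ℂ) : (om⁻¹ * w).re = -(w.re - √3 * w.im) / 2 := by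
  rw [omi_eq, Complex.mul_re]; ring

/-- exactly one of the three rotations has positive real part -/
theorem one_pos3 {w : ℂ} (h : 0 < (w ^ 3).re) :
    (0 < w.re ∧ ¬ 0 < (om⁻¹ * w).re ∧ ¬ 0 < (om * w).re) ∨
    (¬ 0 < w.re ∧ 0 < (om⁻¹ * w).re ∧ ¬ 0 < (om * w).re) ∨
    (¬ 0 < w.re ∧ ¬ 0 < (om⁻¹ * w).re ∧ 0 < (om * w).re) := by
  have h3 : √3 * √3 = 3 := Real.mul_self_sqrt (by norm_num)
  have e : w.re * ((om⁻¹ * w).re * (om * w).re) = (w ^ 3).re / 4 := by
    rw [re_om, re_omi]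
    simp only [pow_succ, pow_zero, one_mul, Complex.mul_re, Complex.mul_im]
    linear_combination (-(w.re * w.im * w.im) / 4) * h3
  have s : w.re + ((om⁻¹ * w).re + (om * w).re) = 0 := by
    rw [re_om, re_omi]; ring
  have hp : 0 < w.re * ((om⁻¹ * w).re * (om * w).re) := by rw [e]; positivity
  generalize w.re = p at *
  generalize (om⁻¹ * w).re = q at *
  generalize (om * w).re = r at *
  rcases lt_trichotomy p 0 with hp0 | hp0 | hp0
  · have hqr : q * r < 0 := by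
      by_contra hcon
      have := mul_nonpos_of_nonpos_of_nonneg hp0.le (not_lt.1 hcon)
      linarith
    rcases mul_neg_iff.1 hqr with ⟨hq, hr⟩ | ⟨hq, hr⟩
    · exact Or.inr (Or.inl ⟨not_lt.2 hp0.le, hq, not_lt.2 hr.le⟩)
    · exact Or.inr (Or.inr ⟨not_lt.2 hp0.le, not_lt.2 hq.le, hr⟩)
  · rw [hp0, zero_mul] at hp
    exact absurd hp (lt_irrefl 0)
  · have hqr : 0 < q * r := by
      by_contra hcon
      have := mul_nonpos_of_nonneg_of_nonpos hp0.le (not_lt.1 hcon)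
      linarith
    rcases mul_pos_iff.1 hqr with ⟨hq, hr⟩ | ⟨hq, hr⟩
    · exfalso; linarith
    · exact Or.inl ⟨hp0, not_lt.2 hq.le, not_lt.2 hr.le⟩

/-- the fibre -/
abbrev FF : Set (ℂ × (ℂ × ℂ)) := {e : ℂ × (ℂ × ℂ) | e.2.2 ^ 2 - e.2.1 ^ 3 = 1}

def AA : Set FF := {e | 1 / 3 < (e.1.2.2 ^ 2).re}

def BB : Set FF := {e | (e.1.2.2 ^ 2).re < 2 / 3}

open Classical in
noncomputable def aA (e : FF) : ZMod 2 := if 0 < (e.1.2.2).re then 0 else 1

open Classical in
noncomputable def bB (e : FF) : ZMod 3 :=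
  if 0 < (-e.1.2.1).re then 0 else if 0 < (om⁻¹ * -e.1.2.1).re then 1 else 2

theorem reA {e : FF} (he : e ∈ AA) : (e.1.2.2).re ≠ 0 := by
  intro h
  have h1 : 1 / 3 < (e.1.2.2 ^ 2).re := he
  rw [pow_two, Complex.mul_re, h] at h1
  nlinarith [mul_self_nonneg (e.1.2.2).im]

theorem cubeB {e : FF} (he : e ∈ BB) : 0 < ((-e.1.2.1) ^ 3).re := by
  have h1 : (e.1.2.2 ^ 2).re < 2 / 3 := he
  have h2 : e.1.2.2 ^ 2 - e.1.2.1 ^ 3 = 1 := e.2
  have h3 : (-e.1.2.1) ^ 3 = 1 - e.1.2.2 ^ 2 := by linear_combination h2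
  rw [h3, Complex.sub_re, Complex.one_re]
  linarith

theorem a0 {e : FF} : aA e = 0 ↔ 0 < (e.1.2.2).re := by
  unfold aA
  split_ifs with h
  · simp [h]
  · simp [h]

theorem a1 {e : FF} (he : e ∈ AA) : aA e = 1 ↔ 0 < (-1 * e.1.2.2).re := by
  have h1 := reA he
  unfold aA
  have e1 : (-1 * e.1.2.2).re = -(e.1.2.2).re := by simp
  rw [e1]
  split_ifs with h
  · constructor
    · intro h0; exact absurd h0 (by decide)
    · intro h0; exfalso; linarith
  · simp only [true_iff]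
    have := lt_of_le_of_ne (not_lt.1 h) h1
    linarith

theorem b0 {e : FF} : bB e = 0 ↔ 0 < (-e.1.2.1).re := by
  unfold bB
  split_ifs with h h'
  · exact ⟨fun _ => h, fun _ => rfl⟩
  · simp only [h, iff_false]; decide
  · simp only [h, iff_false]; decide

theorem b1 {e : FF} (he : e ∈ BB) : bB e = 1 ↔ 0 < (om⁻¹ * -e.1.2.1).re := by
  unfold bB
  rcases one_pos3 (cubeB he) with ⟨h1, h2, h3⟩ | ⟨h1, h2, h3⟩ | ⟨h1, h2, h3⟩
  · rw [if_pos h1]; simp only [h2, iff_false]; decide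
  · rw [if_neg h1, if_pos h2]; simp only [h2]
  · rw [if_neg h1, if_neg h2]; simp only [h2, iff_false]; decide

theorem b2 {e : FF} (he : e ∈ BB) : bB e = 2 ↔ 0 < (om * -e.1.2.1).re := by
  unfold bB
  rcases one_pos3 (cubeB he) with ⟨h1, h2, h3⟩ | ⟨h1, h2, h3⟩ | ⟨h1, h2, h3⟩
  · rw [if_pos h1]; simp only [h3, iff_false]; decide
  · rw [if_neg h1, if_pos h2]; simp only [h3, iff_false]; decide
  · rw [if_neg h1, if_neg h2]; simp only [h3]

/-- the rotations -/
noncomputable def rr (j : ZMod 3) : ℂ := if j = 0 then 1 else if j = 1 then om⁻¹ else om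

noncomputable def ss (i : ZMod 2) : ℂ := if i = 0 then 1 else -1

theorem rr3 (j : ZMod 3) : rr j ^ 3 = 1 := by
  unfold rr
  split_ifs
  · simp
  · rw [inv_pow, om3, inv_one]
  · exact om3

theorem ss1 (i : ZMod 2) : ss i = 1 ∨ ss i = -1 := by
  unfold ss
  split_ifs
  · exact Or.inl rfl
  · exact Or.inr rfl

theorem a_iff (i : ZMod 2) {e : FF} (he : e ∈ AA) : aA e = i ↔ 0 < (ss i * e.1.2.2).re := by
  fin_cases i
  · change aA e = 0 ↔ 0 < (ss 0 * e.1.2.2).re
    rw [a0]; simp [ss]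
  · change aA e = 1 ↔ 0 < (ss 1 * e.1.2.2).re
    rw [a1 he]; simp [ss]

theorem b_iff' (j : ZMod 3) {e : FF} (he : e ∈ BB) : bB e = j ↔ 0 < (rr j * -e.1.2.1).re := by
  fin_cases j
  · change bB e = 0 ↔ 0 < (rr 0 * -e.1.2.1).re
    rw [b0]; simp [rr]
  · change bB e = 1 ↔ 0 < (rr 1 * -e.1.2.1).re
    rw [b1 he]
    have : rr 1 = om⁻¹ := by unfold rr; rw [if_neg (by decide), if_pos rfl]
    rw [this]
  · change bB e = 2 ↔ 0 < (rr 2 * -e.1.2.1).re
    rw [b2 he]
    have : rr 2 = om := by unfold rr; rw [if_neg (by decide), if_neg (by decide)]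
    rw [this]

theorem b_iff (j : ZMod 3) {e : FF} (he : e ∈ BB) :
    bB e = j ↔ √3 * |(-rr j * e.1.2.1).im| < (-rr j * e.1.2.1).re := by
  rw [b_iff' j he]
  have h1 : rr j * -e.1.2.1 = -rr j * e.1.2.1 := by ring
  have h2 : 0 < ((rr j * -e.1.2.1) ^ 3).re := by
    rw [mul_pow, rr3, one_mul]; exact cubeB he
  rw [← Se_iff h2, h1]
  rfl

theorem f1 (h : S_JOIN) (hA : S_CA) (hB : S_CB) (hAB : S_CAB) : S_F1 := by
  intro g hg
  have hg1 : ∀ e : FF, (g e).1.2.1 = om * e.1.2.1 := fun e => by rw [hg e]; rfl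
  have hg2 : ∀ e : FF, (g e).1.2.2 = -e.1.2.2 := fun e => by rw [hg e]; rfl
  have cx : Continuous fun e : FF => e.1.2.1 := by fun_prop
  have cy : Continuous fun e : FF => e.1.2.2 := by fun_prop
  have oA : IsOpen AA := by
    apply isOpen_lt continuous_const
    exact Complex.continuous_re.comp (cy.pow 2)
  have oB : IsOpen BB := by
    apply isOpen_lt _ continuous_const
    exact Complex.continuous_re.comp (cy.pow 2)
  have gA' : ∀ e ∈ AA, g e ∈ AA := by
    intro e he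
    change 1 / 3 < ((g e).1.2.2 ^ 2).re
    rw [hg2, neg_sq]; exact he
  have gB' : ∀ e ∈ BB, g e ∈ BB := by
    intro e he
    change ((g e).1.2.2 ^ 2).re < 2 / 3
    rw [hg2, neg_sq]; exact he
  refine h FF g AA BB aA bB oA oB ?_ ?_ ?_ ?_ ?_ ?_ ?_ ?_
  · intro x
    by_cases hx : 1 / 3 < (x.1.2.2 ^ 2).re
    · exact Or.inl hx
    · right
      change (x.1.2.2 ^ 2).re < 2 / 3
      linarith [not_lt.1 hx]
  · intro x hx
    refine ⟨gA' x hx, ?_⟩
    by_cases h0 : aA x = 0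
    · rw [h0, zero_add, a1 (gA' x hx), hg2]
      have := a0.1 h0
      simpa using this
    · have h1 : aA x = 1 := by
        have : ∀ i : ZMod 2, i ≠ 0 → i = 1 := by decide
        exact this _ h0
      rw [h1]
      have e2 : (1 : ZMod 2) + 1 = 0 := by decide
      rw [e2, a0, hg2]
      have := (a1 hx).1 h1
      simpa using this
  · intro x hx
    refine ⟨gB' x hx, ?_⟩
    have hom0 := om_ne
    have h3 : om * om * om = 1 := by have := om3; rw [← this]; ring
    have hj : ∀ j : ZMod 3, bB x = j → bB (g x) = j + 1 := by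
      intro j hjx
      rw [b_iff' _ (gB' x hx), hg1]
      rw [b_iff' _ hx] at hjx
      have e1 : rr (j + 1) * -(om * x.1.2.1) = rr j * -x.1.2.1 := by
        have e2 : rr (j + 1) * om = rr j := by
          fin_cases j
          · change rr 1 * om = rr 0
            unfold rr
            rw [if_neg (by decide), if_pos rfl, if_pos rfl, inv_mul_cancel₀ hom0]
          · change rr 2 * om = rr 1
            unfold rr
            rw [if_neg (by decide), if_neg (by decide), if_neg (by decide), if_pos rfl]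
            exact eq_inv_of_mul_eq_one_left h3
          · change rr 0 * om = rr 2
            unfold rr
            rw [if_pos rfl, if_neg (by decide), if_neg (by decide), one_mul]
        rw [← e2]; ring
      rw [e1]; exact hjx
    exact hj _ rfl
  · intro i
    have : {x : FF | x ∈ AA ∧ aA x = i} = AA ∩ {x | 0 < (ss i * x.1.2.2).re} := by
      ext x
      constructor
      · rintro ⟨h1, h2⟩; exact ⟨h1, (a_iff i h1).1 h2⟩
      · rintro ⟨h1, h2⟩; exact ⟨h1, (a_iff i h1).2 h2⟩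
    rw [this]
    apply oA.inter
    apply isOpen_lt continuous_const
    exact Complex.continuous_re.comp (continuous_const.mul cy)
  · intro j
    have : {x : FF | x ∈ BB ∧ bB x = j} = BB ∩ {x | 0 < (rr j * -x.1.2.1).re} := by
      ext x
      constructor
      · rintro ⟨h1, h2⟩; exact ⟨h1, (b_iff' j h1).1 h2⟩
      · rintro ⟨h1, h2⟩; exact ⟨h1, (b_iff' j h1).2 h2⟩
    rw [this]
    apply oB.inter
    apply isOpen_lt continuous_const
    exact Complex.continuous_re.comp (continuous_const.mul cx.neg)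
  · intro i
    refine contr _ _ ?_ ?_ (hA (ss i) (ss1 i))
    · intro x
      constructor
      · rintro ⟨h1, h2⟩; exact ⟨x.2, h1, (a_iff i h1).1 h2⟩
      · rintro ⟨_, h1, h2⟩; exact ⟨h1, (a_iff i h1).2 h2⟩
    · rintro x ⟨h1, _⟩; exact h1
  · intro j
    refine contr _ _ ?_ ?_ (hB (rr j) (rr3 j))
    · intro x
      constructor
      · rintro ⟨h1, h2⟩; exact ⟨x.2, h1, (b_iff j h1).1 h2⟩
      · rintro ⟨_, h1, h2⟩; exact ⟨h1, (b_iff j h1).2 h2⟩
    · rintro x ⟨h1, _⟩; exact h1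
  · intro i j
    refine contr _ _ ?_ ?_ (hAB (ss i) (rr j) (ss1 i) (rr3 j))
    · intro x
      constructor
      · rintro ⟨⟨h1, h2⟩, h3, h4⟩
        exact ⟨⟨x.2, h1, (a_iff i h1).1 h2⟩, x.2, h3, (b_iff j h3).1 h4⟩
      · rintro ⟨⟨_, h1, h2⟩, _, h3, h4⟩
        exact ⟨⟨h1, (a_iff i h1).2 h2⟩, h3, (b_iff j h3).2 h4⟩
    · rintro x ⟨⟨h1, _⟩, _⟩; exact h1

end Pool.Agent.Q299.HF.F1
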