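import Pool.Agent.Q293.HF.Stm

/-!
# Project HF: relative Mayer-Vietoris (MVU)
-/

set_option autoImplicit false

open Topology Filter

namespace Pool.Agent.Q299.HF.MVU

open Pool.Agent.Q293.HF Pool.Agent.Helper922.HB

variable {X : Type} [TopologicalSpace X]

theorem small_single (A : Set X) (k : ℕ) :
    Sc.smallSet {A} k = {σ : Sing X k | Set.range σ ⊆ A} := by
  ext σ
  simp [Sc.smallSet]

theorem mem_SubC {A : Set X} {k : ℕ} {z : Sing X k →₀ ℤ} :
    z ∈ SubC A k ↔ z ∈ Finsupp.supported ℤ ℤ (Sc.smallSet {A} k) := by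
  rw [small_single]
  rfl

theorem DD_A {A : Set X} (C : Set (Set X)) {k : ℕ} {z : Sing X k →₀ ℤ} (hz : z ∈ SubC A k) :
    Sc.DD C k z ∈ SubC A (k + 1) := by
  refine Sc.supported_map {σ : Sing X k | Set.range σ ⊆ A} (Sc.DD C k) (SubC A (k + 1)) ?_ z hz
  intro σ hσ
  rw [Sc.DD_single]
  refine Submodule.sum_mem _ fun i _ => ?_
  rw [mem_SubC]
  apply Sc.TS_small
  apply Sc.Sd_iter_small
  rw [small_single]
  exact Sc.single_mem_supported' hσ

theorem bdry_A {A : Set X} {k : ℕ} {z : Sing X (k + 1) →₀ ℤ} (hz : z ∈ SubC A (k + 1)) :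
    bdry X k z ∈ SubC A k := by
  rw [mem_SubC] at hz ⊢
  exact Sc.sbd_small {A} k z hz

theorem rho_A {A : Set X} (C : Set (Set X)) {k : ℕ} {z : Sing X k →₀ ℤ} (hz : z ∈ SubC A k) :
    Sc.rho C k z ∈ SubC A k := by
  cases k with
  | zero => exact hz
  | succ k =>
    rw [Sc.rho_succ]
    refine Submodule.sub_mem _ (Submodule.sub_mem _ hz ?_) ?_
    · exact bdry_A (DD_A C hz)
    · exact DD_A C (bdry_A hz)

theorem push_A {Y : Type} [TopologicalSpace Y] (f : C(Y, X)) {B : Set Y} {A : Set X}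
    (h : ∀ y ∈ B, f y ∈ A) {k : ℕ} {z : Sing Y k →₀ ℤ} (hz : z ∈ SubC B k) :
    push f k z ∈ SubC A k := by
  refine Sc.supported_map {σ : Sing Y k | Set.range σ ⊆ B} (push f k) (SubC A k) ?_ z hz
  intro σ hσ
  rw [push_single]
  apply Sc.single_mem_supported'
  rintro _ ⟨t, rfl⟩
  exact h _ (hσ ⟨t, rfl⟩)

theorem lift_A (U A : Set X) {k : ℕ} {z : Sing U k →₀ ℤ} (hz : push (sub U) k z ∈ SubC A k) :
    z ∈ SubC (Subtype.val ⁻¹' A : Set U) k := by
  intro σ hσ
  have hinj : Function.Injective (fun σ : Sing U k => (sub U).comp σ) := by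
    intro σ τ hst
    ext t
    exact DFunLike.congr_fun hst t
  have h1 : (push (sub U) k z) ((sub U).comp σ) = z σ := by
    simp only [push, Finsupp.lmapDomain_apply]
    exact Finsupp.mapDomain_apply hinj z σ
  have h2 : (sub U).comp σ ∈ (push (sub U) k z).support := by
    rw [Finsupp.mem_support_iff, h1]
    exact Finsupp.mem_support_iff.mp hσ
  have h3 := hz h2
  rintro _ ⟨t, rfl⟩
  exact h3 ⟨t, rfl⟩

theorem push_RBdy (U A : Set X) {k : ℕ} {z : Sing U k →₀ ℤ}
    (hz : z ∈ RBdy (Subtype.val ⁻¹' A : Set U) k) : push (sub U) k z ∈ RBdy A k := by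
  obtain ⟨b, hb, s, hs, rfl⟩ := Submodule.mem_sup.mp hz
  rw [map_add]
  exact Submodule.add_mem_sup (push_mem_Bdy _ _ _ hb) (push_A (sub U) (fun y hy => hy) hs)

theorem split_A (U V A : Set X) {k : ℕ} {z : Sing X k →₀ ℤ} (h1 : z ∈ SubC A k)
    (h2 : z ∈ Finsupp.supported ℤ ℤ (Sc.smallSet {U, V} k)) :
    ∃ a b : Sing X k →₀ ℤ, a ∈ SubC A k ∧ b ∈ SubC A k ∧ a ∈ SubC U k ∧ b ∈ SubC V k ∧
      z = a + b := by
  have h3 : z ∈ Finsupp.supported ℤ ℤ ({σ : Sing X k | Set.range σ ⊆ A ∩ U} ∪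
      {σ : Sing X k | Set.range σ ⊆ A ∩ V}) := by
    intro σ hσ
    have h4 : Set.range σ ⊆ A := h1 hσ
    obtain ⟨C, hC, h5⟩ := h2 hσ
    rcases hC with rfl | hC
    · exact Or.inl (Set.subset_inter h4 h5)
    · rw [Set.mem_singleton_iff] at hC
      subst hC
      exact Or.inr (Set.subset_inter h4 h5)
  rw [Finsupp.supported_union] at h3
  obtain ⟨a, ha, b, hb, rfl⟩ := Submodule.mem_sup.mp h3
  refine ⟨a, b, ?_, ?_, ?_, ?_, rfl⟩
  · exact fun σ hσ => (ha hσ).trans Set.inter_subset_left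
  · exact fun σ hσ => (hb hσ).trans Set.inter_subset_left
  · exact fun σ hσ => (ha hσ).trans Set.inter_subset_right
  · exact fun σ hσ => (hb hσ).trans Set.inter_subset_right

theorem mvu : S_MVU := by
  intro X _ U V A hU hV hUV kU kV kUV n z hz
  change z ∈ RBdy A n
  have kU' : ∀ n, ∀ z ∈ RCyc (Subtype.val ⁻¹' A : Set U) n,
      z ∈ RBdy (Subtype.val ⁻¹' A : Set U) n := fun n z hz => kU n z hz
  have kV' : ∀ n, ∀ z ∈ RCyc (Subtype.val ⁻¹' A : Set V) n,
      z ∈ RBdy (Subtype.val ⁻¹' A : Set V) n := fun n z hz => kV n z hz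
  have kUV' : ∀ n, ∀ z ∈ RCyc (Subtype.val ⁻¹' A : Set ↥(U ∩ V)) n,
      z ∈ RBdy (Subtype.val ⁻¹' A : Set ↥(U ∩ V)) n := fun n z hz => kUV n z hz
  cases n with
  | zero =>
    obtain ⟨u, v, rfl⟩ := mv_zero U V hUV z
    refine Submodule.add_mem _ ?_ ?_
    · exact push_RBdy U A (kU' 0 u Submodule.mem_top)
    · exact push_RBdy V A (kV' 0 v Submodule.mem_top)
  | succ n =>
    have hz' : bdry X n z ∈ SubC A n := hz
    have hsm := Sc.rho_small {U, V} (mvx_open U V hU hV) (mvx_cov U V hUV)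
    obtain ⟨u, v, huv⟩ := mvx_small U V (n + 1) _ (hsm (n + 1) z)
    -- the difference
    have hdiff : z - Sc.rho {U, V} (n + 1) z ∈ RBdy A (n + 1) := by
      rw [Sc.rho_succ]
      have e : z - (z - Sc.sbd X (n + 1) (Sc.DD {U, V} (n + 1) z) -
          Sc.DD {U, V} n (Sc.sbd X n z)) = Sc.sbd X (n + 1) (Sc.DD {U, V} (n + 1) z) +
          Sc.DD {U, V} n (Sc.sbd X n z) := by abel
      rw [e]
      exact Submodule.add_mem_sup ⟨_, rfl⟩ (DD_A _ hz')
    suffices hmain : Sc.rho {U, V} (n + 1) z ∈ RBdy A (n + 1) by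
      have := Submodule.add_mem _ hdiff hmain
      rwa [sub_add_cancel] at this
    -- the boundary of the small chain
    have hb : bdry X n (Sc.rho {U, V} (n + 1) z) = Sc.rho {U, V} n (bdry X n z) :=
      Sc.sbd_rho {U, V} n z
    obtain ⟨a, b, haA, hbA, haU, hbV, hab⟩ := split_A U V A (rho_A {U, V} hz') (hsm n (bdry X n z))
    obtain ⟨a', ha'⟩ := mvx_lift U n a haU
    obtain ⟨b', hb'⟩ := mvx_lift V n b hbV
    have ha'A : a' ∈ SubC (Subtype.val ⁻¹' A : Set U) n := lift_A U A (by rw [ha']; exact haA)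
    have hb'A : b' ∈ SubC (Subtype.val ⁻¹' A : Set V) n := lift_A V A (by rw [hb']; exact hbA)
    have hcom : push (sub U) n (bdry U n u - a') = push (sub V) n (b' - bdry V n v) := by
      rw [map_sub, map_sub, ha', hb', sub_eq_sub_iff_add_eq_add]
      rw [huv, map_add, bdry_push, bdry_push, hab] at hb
      rw [hb]
      exact add_comm _ _
    obtain ⟨d, hd1, hd2⟩ := mvx_common U V n _ _ hcom
    have hdc : d ∈ RCyc (Subtype.val ⁻¹' A : Set ↥(U ∩ V)) n := by
      cases n with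
      | zero => exact Submodule.mem_top
      | succ m =>
        change bdry _ m d ∈ SubC _ m
        apply lift_A (U ∩ V) A
        rw [← mvx_push_inl, ← bdry_push (inl U V), ← hd1, map_sub, bdry_bdry, zero_sub, map_neg]
        refine Submodule.neg_mem _ ?_
        exact push_A (sub U) (fun y hy => hy) (bdry_A ha'A)
    obtain ⟨_, ⟨w, rfl⟩, c, hc, hwc⟩ := Submodule.mem_sup.mp (kUV' n d hdc)
    have hw : bdry _ n w = d - c := by rw [← hwc]; abel
    have hu' : u - push (inl U V) (n + 1) w ∈ RCyc (Subtype.val ⁻¹' A : Set U) (n + 1) := by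
      change bdry U n _ ∈ SubC _ n
      have e : bdry U n (u - push (inl U V) (n + 1) w) = a' + push (inl U V) n c := by
        rw [map_sub, bdry_push, hw, map_sub, ← hd1]
        abel
      rw [e]
      exact Submodule.add_mem _ ha'A (push_A (inl U V) (fun y hy => hy) hc)
    have hv' : v + push (inr U V) (n + 1) w ∈ RCyc (Subtype.val ⁻¹' A : Set V) (n + 1) := by
      change bdry V n _ ∈ SubC _ n
      have e : bdry V n (v + push (inr U V) (n + 1) w) = b' - push (inr U V) n c := by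
        rw [map_add, bdry_push, hw, map_sub, ← hd2]
        abel
      rw [e]
      exact Submodule.sub_mem _ hb'A (push_A (inr U V) (fun y hy => hy) hc)
    have e : Sc.rho {U, V} (n + 1) z = push (sub U) (n + 1) (u - push (inl U V) (n + 1) w) +
        push (sub V) (n + 1) (v + push (inr U V) (n + 1) w) := by
      rw [huv, map_sub, map_add, mvx_push_inl, mvx_push_inr]
      abel
    rw [e]
    exact Submodule.add_mem _ (push_RBdy U A (kU' _ _ hu')) (push_RBdy V A (kV' _ _ hv'))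

end Pool.Agent.Q299.HF.MVU
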