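import Pool.Agent.Q293.HF.Stm

/-!
# Project HF: the universal covering of `ℂ ∖ {0}` (PU) and KE
-/

set_option autoImplicit false

open Topology Filter

namespace Pool.Agent.Q299.HF.PUKE

open Pool.Agent.Q293.HF Pool.Agent.Helper922.HB

theorem hU_apply (e : ℂ × (ℂ × ℂ)) : hU e = (e.1 + 2 * Real.pi * Complex.I, e.2) := rfl

theorem hU_symm_apply (e : ℂ × (ℂ × ℂ)) : hU⁻¹ e = (e.1 - 2 * Real.pi * Complex.I, e.2) := by
  change hU.symm e = _
  rw [Homeomorph.symm_apply_eq, hU_apply]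
  simp

theorem hU_zpow (k : ℤ) : ∀ e : ℂ × (ℂ × ℂ),
    (hU ^ k) e = (e.1 + k * (2 * Real.pi * Complex.I), e.2) := by
  induction k using Int.induction_on with
  | zero =>
    intro e
    rw [zpow_zero]
    change e = _
    simp
  | succ i ih =>
    intro e
    rw [zpow_add_one]
    change (hU ^ (i : ℤ)) (hU e) = _
    rw [ih, hU_apply]
    ext1
    · push_cast
      ring
    · rfl
  | pred i ih =>
    intro e
    rw [zpow_sub_one]
    change (hU ^ (-(i : ℤ))) (hU⁻¹ e) = _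
    rw [ih, hU_symm_apply]
    ext1
    · push_cast
      ring
    · rfl

theorem pu (h : S_ZC) : S_PU := by
  have hp2 : (0 : ℝ) < 2 * Real.pi := by positivity
  refine h _ _ pU hU ⟨fun e => e.1.im / (2 * Real.pi), by fun_prop⟩ ?_ ?_ ?_ ?_ ?_
  · intro e
    change (hU e).1.im / (2 * Real.pi) = e.1.im / (2 * Real.pi) + 1
    rw [hU_apply]
    have : (e.1 + 2 * Real.pi * Complex.I).im = e.1.im + 2 * Real.pi := by simp
    rw [this]
    field_simp
  · have h1 : IsOpenMap (fun v : ℂ => (⟨Complex.exp v, Complex.exp_ne_zero _⟩ : Cs)) := by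
      intro U hU
      have h2 : IsOpen (Complex.exp '' U) := Complex.isOpenMap_exp U hU
      refine ⟨Complex.exp '' U, h2, ?_⟩
      ext z
      constructor
      · rintro ⟨v, hv, hvz⟩
        exact ⟨v, hv, Subtype.ext hvz⟩
      · rintro ⟨v, hv, rfl⟩
        exact ⟨v, hv, rfl⟩
    exact h1.prodMap IsOpenMap.id
  · rintro ⟨⟨z, hz⟩, w⟩
    exact ⟨(Complex.log z, w), by
      change ((⟨Complex.exp (Complex.log z), _⟩ : Cs), w) = _
      congr 1
      exact Subtype.ext (Complex.exp_log hz)⟩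
  · intro e
    rw [hU_apply]
    change ((⟨Complex.exp (e.1 + 2 * Real.pi * Complex.I), _⟩ : Cs), e.2) = (⟨Complex.exp e.1, _⟩, e.2)
    congr 1
    apply Subtype.ext
    change Complex.exp (e.1 + 2 * Real.pi * Complex.I) = Complex.exp e.1
    rw [Complex.exp_add, Complex.exp_two_pi_mul_I, mul_one]
  · intro e e' hee
    have h1 : Complex.exp e'.1 = Complex.exp e.1 := congrArg (fun x : Cs × (ℂ × ℂ) => (x.1 : ℂ)) hee.symm
    have h2 : e.2 = e'.2 := congrArg (fun x : Cs × (ℂ × ℂ) => x.2) hee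
    obtain ⟨n, hn⟩ := Complex.exp_eq_exp_iff_exists_int.mp h1
    refine ⟨n, ?_⟩
    rw [hU_zpow, ← hn, h2]

theorem ke (h : S_KU) (h1 : S_PU) (h2 : S_COVH) : S_KE := by
  intro t ht
  have hom : om ^ 3 = 1 := by
    unfold om
    rw [← Complex.exp_nat_mul]
    have : ((3 : ℕ) : ℂ) * (2 * Real.pi * Complex.I / 3) = 2 * Real.pi * Complex.I := by
      push_cast; ring
    rw [this, Complex.exp_two_pi_mul_I]
  refine h2 _ _ pU hU h1 {e : Cs × (ℂ × ℂ) | e.2.2 ^ 2 - e.2.1 ^ 3 = t} gU gA 1 ?_ ?_ ?_ (h t ht)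
  · intro e
    change ((⟨Complex.exp (e.1 + (-(Real.log 2 : ℂ))), _⟩ : Cs), rot e.2)
      = (half ⟨Complex.exp e.1, _⟩, rot e.2)
    congr 1
    apply Subtype.ext
    change Complex.exp (e.1 + (-(Real.log 2 : ℂ))) = Complex.exp e.1 / 2
    rw [Complex.exp_add, Complex.exp_neg, ← Complex.ofReal_exp, Real.exp_log (by norm_num)]
    push_cast
    ring
  · intro e
    change ((e.1 + 2 * Real.pi * Complex.I) + (-(Real.log 2 : ℂ)), rot e.2)
      = ((e.1 + (-(Real.log 2 : ℂ))) + 2 * Real.pi * Complex.I, rot e.2)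
    congr 1
    ring
  · intro x
    change (-x.2.2) ^ 2 - (om * x.2.1) ^ 3 = t ↔ x.2.2 ^ 2 - x.2.1 ^ 3 = t
    rw [mul_pow, hom, one_mul, neg_sq]

end Pool.Agent.Q299.HF.PUKE
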